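import Pool.Agent.X180.OC.Defs

/-!
Definitions: quasi-projective varieties as complements of reduced divisors.
-/

set_option autoImplicit false

open FF Pool.Agent.W602.GT Pool.Agent.Y172 Pool.Agent.Y191

namespace Pool.Agent.X180.OC

variable {K : Type} [Field K] [Algebra ℂ K] {N : ℕ}

/-- `X̄` is a normal projective variety of dimension `n`, and `D` is a reduced divisor: `Δ P` is `1`
for the components `P` of `D`, and `0` for the other prime divisors. -/
def IsCompactification (y : Fin (N + 1) → K) (n : ℕ) (Δ : Place ℂ K → ℚ) : Prop :=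
  OP.IsPair y n Δ ∧ ∀ P, IsPrimeDivisor y P → Δ P = 0 ∨ Δ P = 1

/-- the prime divisors of `X = X̄ ∖ D` -/
def openDivisors (y : Fin (N + 1) → K) (Δ : Place ℂ K → ℚ) : Set (Place ℂ K) :=
  {P | IsPrimeDivisor y P ∧ Δ P = 0}

end Pool.Agent.X180.OC
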