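import Pool.Agent.X180.OC.Est

/-!
Forms of a subfield from a constant orbifold.
-/

set_option autoImplicit false
set_option linter.overlappingInstances false
set_option linter.unusedSectionVars false

open FF Pool.Agent.W602.GT Pool.Agent.W603.LV Pool.Agent.W619.PQ Pool.Agent.TH585.SV
open Pool.Agent.W619.Y Pool.Agent.Y172 Pool.Agent.Y191 Pool.Agent.X180.Iso Pool.Agent.X180.Tow
open Pool.Agent.X180.Orb

namespace Pool.Agent.X180.OC

section

variable {K K' : Type} [Field K] [Field K'] [Algebra ℂ K] [Algebra ℂ K'] [Algebra K K']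
  [IsScalarTower ℂ K K'] [FiniteDimensional K K'] {L E : IntermediateField ℂ K}

/-- **Constant orbifolds.** -/
theorem const_part {N d e' lam m : ℕ} (hN : Algebra.trdeg ℂ K = N) (hLE : L ≤ E)
    (hLK : Algebra.trdeg L K = e') (hd : Algebra.trdeg (dn E L) E = d)
    (M : IntermediateField ℂ K') [Algebra.EssFiniteType ℂ M] (hM : Algebra.trdeg ℂ M = d)
    (hML : ∀ x : Fin d → M, AlgebraicIndependent ℂ x →
      AlgebraicIndependent (upF K' L) (fun j => ((x j : M) : K')))
    (hME : ∀ z ∈ M, IsAlgebraic (upF K' E) z)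
    {β : Place ℂ M → ℝ} (hm : 0 < m) {X : Set (Place ℂ K)}
    (hβ : ∀ P ∈ X, ∀ (Q : Place ℂ K') (ε : ℕ), Over Q P ε →
      ∀ (p : Place ℂ M) (ν : ℕ), Over Q p ν → 0 ≤ β p)
    {ω : Fin (lam + 1) → (Fin d → Derivation ℂ M M) → M} (hω : ∀ b, IsPluri m (ω b))
    (hωr : ∀ b, ∀ P ∈ X, ∀ (Q : Place ℂ K') (ε : ℕ), Over Q P ε →
      ∀ (p : Place ℂ M) (ν : ℕ), Over Q p ν → Divisorial d p → ∀ D, (∀ i, DerReg p (D i)) →
        ω b D = 0 ∨ -(m * (1 - β p)) ≤ (p.ord (ω b D) : ℝ))
    {D0 : Fin d → Derivation ℂ M M} (hD0 : ω 0 D0 ≠ 0)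
    (hDi : AlgebraicIndependent ℂ (fun i : Fin lam => ω i.succ D0 / ω 0 D0))
    {δ : Place ℂ K → ℝ} (hδ : ∀ P ∈ X, 0 ≤ δ P)
    (hH : ∀ P ∈ X, (∀ f ∈ L, f ≠ 0 → P.ord f = 0) → ¬ (∀ f ∈ E, f ≠ 0 → P.ord f = 0) →
      ∀ (Q : Place ℂ K') (ε : ℕ), Over Q P ε →
        ((∀ f : M, Q.ord (f : K') = 0) → (ε : ℝ) * (1 - δ P) ≤ 1) ∧
        ∀ (p : Place ℂ M) (ν : ℕ), Over Q p ν → (ε : ℝ) * (1 - δ P) ≤ ν * β p) :
    HasPart N X δ E L d lam := by
  classical
  have hcL : CharZero L := charZero_of_injective_algebraMap (algebraMap ℂ L).injective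
  have hcU : CharZero (upF K' L) :=
    charZero_of_injective_algebraMap (algebraMap ℂ (upF K' L)).injective
  have hcD : CharZero (dn E L) :=
    charZero_of_injective_algebraMap (algebraMap ℂ (dn E L)).injective
  obtain ⟨t, Dt, ht, -⟩ := exists_crd (k := dn E L) (K := E) hd
  obtain ⟨t', ht'⟩ : ∃ t' : Fin d → K', t' = fun j => algebraMap K K' ((t j : E) : K) :=
    ⟨_, rfl⟩
  have hti : AlgebraicIndependent (upF K' L) t' := by
    rw [ht']
    exact ind_t hLE ht
  obtain ⟨T, hT⟩ : ∃ T : IntermediateField (upF K' L) K', T =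
      IntermediateField.adjoin (upF K' L) (Set.range t') := ⟨_, rfl⟩
  have hET : ∀ z ∈ upF K' E, IsAlgebraic T z := fun z hz => by
    rw [hT, ht']
    exact alg_E hLE ht hz
  have hTE : ∀ z ∈ T, z ∈ upF K' E := fun z hz => by
    rw [hT, ht'] at hz
    exact T_le hLE hz
  -- algebraic over `E`
  have hacl : ∀ z : K', IsAlgebraic (upF K' E) z → IsAlgebraic T z :=
    fun z hz => alg_trans hET hz
  have hacl' : ∀ z : K', IsAlgebraic T z → IsAlgebraic (upF K' E) z :=
    fun z hz => alg_of_le hTE hz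
  have hMT : ∀ z : M, IsAlgebraic T (z : K') := fun z => hacl _ (hME z z.2)
  -- the coordinates of `M`
  obtain ⟨y, Ey, hy, hEy⟩ := exists_crd (k := ℂ) (K := M) hM
  have hyL := hML y hy.1
  -- the partial derivatives
  obtain ⟨pd, hpd, hpdT⟩ := exists_par (k := upF K' L) hti
  rw [← hT] at hpdT
  have hchain : ∀ (G : Derivation (upF K' L) K' K') (z : K'), IsAlgebraic T z →
      G z = ∑ j, G (t' j) * pd j z := fun G z hz => by
    rw [hT] at hz
    exact chain_rule hpd G hz
  obtain ⟨J, hJd⟩ : ∃ J : K', J = (Matrix.of fun i l => pd i ((y l : M) : K')).det := ⟨_, rfl⟩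
  have hdety : ∀ G : Fin d → Derivation (upF K' L) K' K',
      (Matrix.of fun i l => G i ((y l : M) : K')).det =
        (Matrix.of fun i j => G i (t' j)).det * J := by
    intro G
    rw [hJd, ← Matrix.det_mul]
    congr 1
    ext i l
    rw [Matrix.mul_apply, Matrix.of_apply, hchain (G i) _ (hMT _)]
    rfl
  have hSm : ∀ z, z ∈ algebraicClosure T K' ↔ IsAlgebraic T z := fun z =>
    mem_algebraicClosure_iff
  have hJT : IsAlgebraic T J := by
    rw [← hSm, hJd, Matrix.det_apply']
    refine sum_mem fun τ _ => mul_mem (intCast_mem _ _) (prod_mem fun i _ => ?_)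
    rw [hSm]
    exact hpdT _ _ (hMT _)
  -- `J` is not zero
  have hJ0 : J ≠ 0 := by
    have : CharZero (upF K' L) := hcU
    obtain ⟨S, hS⟩ := exists_field hyL
    have hcS : CharZero S := charZero_of_injective_algebraMap (algebraMap ℂ S).injective
    have hcS' : CharZero (S.restrictScalars ℂ : IntermediateField ℂ K') :=
      charZero_of_injective_algebraMap (algebraMap ℂ _).injective
    choose E' hE1 using fun i => exists_dual (k := (S.restrictScalars ℂ : IntermediateField ℂ K'))
      (fun j => ((y j : M) : K')) (tb_rs hS) i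
    have hle : upF K' L ≤ S.restrictScalars ℂ := base_le S
    have hk0 : ∀ i, Kills ((E' i).restrictScalars ℂ) (upF K' L) := fun i z hz =>
      (E' i).map_algebraMap (⟨z, hle hz⟩ : (S.restrictScalars ℂ : IntermediateField ℂ K'))
    obtain ⟨G, hG⟩ : ∃ G : Fin d → Derivation (upF K' L) K' K', ∀ i z, G i z = E' i z :=
      ⟨fun i => liftD _ _ (hk0 i), fun _ _ => rfl⟩
    intro h0
    have h1 := hdety G
    have h2 : (Matrix.of fun i l => G i ((y l : M) : K') : Matrix (Fin d) (Fin d) K') = 1 := by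
      ext i j
      rw [Matrix.of_apply, hG, hE1 i j, Matrix.one_apply]
      by_cases h : i = j
      · subst h; simp
      · rw [if_neg h, if_neg (Ne.symm h)]
    rw [h2, Matrix.det_one, h0, mul_zero] at h1
    exact one_ne_zero h1
  -- the forms
  have hval : ∀ b, ω b D0 = (Matrix.of fun i j => D0 i (y j)).det ^ m * ω b Ey := fun b =>
    pluri_coord hy hEy (hω b) D0
  have hd0 : (Matrix.of fun i j => D0 i (y j)).det ^ m ≠ 0 := by
    intro h0
    apply hD0
    rw [hval, h0, zero_mul]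
  have hW0 : ω 0 Ey ≠ 0 := by
    intro h0
    apply hD0
    rw [hval, h0, mul_zero]
  have hind0 : AlgebraicIndependent ℂ (fun i : Fin lam => ω i.succ Ey / ω 0 Ey) := by
    have e1 : (fun i : Fin lam => ω i.succ Ey / ω 0 Ey) =
        fun i : Fin lam => ω i.succ D0 / ω 0 D0 := by
      funext i
      rw [hval i.succ, hval 0, mul_div_mul_left _ _ hd0]
    rw [e1]
    exact hDi
  obtain ⟨f, hf⟩ : ∃ f : Fin (lam + 1) → K', f = fun b => J ^ m * ((ω b Ey : M) : K') := ⟨_, rfl⟩
  have hind' : AlgebraicIndependent L (fun i : Fin lam => f i.succ / f 0) := by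
    have e1 : (fun i : Fin lam => f i.succ / f 0) =
        fun i => ((ω i.succ Ey / ω 0 Ey : M) : K') := by
      funext i
      rw [hf]
      change J ^ m * ((ω i.succ Ey : M) : K') / (J ^ m * ((ω 0 Ey : M) : K')) = _
      rw [mul_div_mul_left _ _ (pow_ne_zero _ hJ0)]
      rfl
    have h1 : AlgebraicIndependent (upF K' L) fun i : Fin lam =>
        ((ω i.succ Ey / ω 0 Ey : M) : K') := by
      obtain ⟨s, hs, hsb⟩ := exists_isTranscendenceBasis_superset (R := ℂ)
        (s := Set.range fun i : Fin lam => ω i.succ Ey / ω 0 Ey) hind0.coe_range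
      have hcard := hsb.cardinalMk_eq_trdeg
      rw [hM] at hcard
      obtain ⟨η⟩ : Nonempty (Fin d ≃ s) := by
        rw [← Cardinal.eq, Cardinal.mk_fin]
        exact hcard.symm
      have hx : IsTranscendenceBasis ℂ (fun j : Fin d => ((η j : s) : M)) := hsb.comp_equiv η
      have h2 := (hML _ hx.1).comp (fun i : Fin lam => η.symm ⟨ω i.succ Ey / ω 0 Ey,
        hs ⟨i, rfl⟩⟩) (fun a b hab => by
          have h3 := congrArg Subtype.val (η.symm.injective hab)
          exact hind0.injective h3)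
      have h4 : (fun i : Fin lam => ((ω i.succ Ey / ω 0 Ey : M) : K')) =
          (fun j : Fin d => (((η j : s) : M) : K')) ∘ fun i : Fin lam =>
            η.symm ⟨ω i.succ Ey / ω 0 Ey, hs ⟨i, rfl⟩⟩ := by
        funext i
        change _ = (((η (η.symm _) : s) : M) : K')
        rw [Equiv.apply_symm_apply]
      rw [h4]
      exact h2
    rw [e1]
    exact ai_up.1 h1
  have hf00 : f 0 ≠ 0 := by
    rw [hf]
    refine mul_ne_zero (pow_ne_zero _ hJ0) fun h0 => hW0 (Subtype.ext h0)
  have hf0 : ∀ b, f b ≠ 0 := by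
    intro b
    refine Fin.cases hf00 (fun i => ?_) b
    intro h0
    have := hind'.ne_zero i
    rw [h0, zero_div] at this
    exact this rfl
  have hfT : ∀ b, IsAlgebraic T (f b) := by
    intro b
    rw [← hSm, hf]
    exact mul_mem (pow_mem ((hSm _).2 hJT) _) ((hSm _).2 (hMT _))
  have hfE : ∀ b, IsAlgebraic E (f b) := fun b =>
    (hacl' _ (hfT b)).of_ringHom_of_comp_eq (upE K' E) (RingHom.id K') (upE K' E).surjective
      Function.injective_id upE_comp
  obtain ⟨R, s, hR, hs0, hsE, hsi, hs⟩ := desc_alg (K := K) L E hf0 hfE hind'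
  refine ⟨m * R, Nat.mul_pos hm (by omega), t, ht, s, hs0, hsE, hsi, ?_⟩
  intro P hP hPd D hD hDL b
  obtain ⟨d0, hd0'⟩ : ∃ d0, d0 = (mtx (fun j => ((t j : E) : K)) D).det := ⟨_, rfl⟩
  rw [← hd0']
  by_cases hd00 : d0 = 0
  · left
    rw [hd00, zero_pow (Nat.mul_pos hm (by omega)).ne', zero_mul]
  right
  have hd0K : algebraMap K K' d0 ≠ 0 := by
    rw [Ne, map_eq_zero]
    exact hd00
  obtain ⟨G, hG⟩ : ∃ G : Fin d → Derivation L K K, ∀ i f, G i f = D i f :=
    ⟨fun i => lft L (D i) (hDL i), fun _ _ => rfl⟩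
  choose G' hG' using fun i => exists_liftF (K' := K') hLK (G i)
  have hdet : (Matrix.of fun i j => G' i (t' j)).det = algebraMap K K' d0 := by
    rw [hd0', RingHom.map_det]
    congr 1
    ext i j
    rw [Matrix.of_apply, RingHom.mapMatrix_apply, Matrix.map_apply, ht', hG', hG]
    rfl
  have hGr : ∀ i f, P.Reg f → P.Reg (G i f) := fun i f hf => by
    rw [hG]
    exact hD i f hf
  have hM0 : (0 : ℝ) ≤ m := Nat.cast_nonneg _
  have hkey : ∀ (Q : Place ℂ K') (ε : ℕ), Over Q P ε → ∀ l,
      (ε : ℝ) * (-(m * δ P) - m * P.ord d0) ≤ Q.ord (f l) := by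
    intro Q ε hQ l
    have hε0 : (0 : ℝ) ≤ ε := Nat.cast_nonneg _
    have h2 : f l * algebraMap K K' d0 ^ m = 0 ∨
        -((m : ℝ) * (ε * δ P)) ≤ (Q.ord (f l * algebraMap K K' d0 ^ m) : ℝ) := by
      by_cases hE : ∀ f ∈ E, f ≠ 0 → P.ord f = 0
      · have hup : ∀ f ∈ upF K' E, f ≠ 0 → Q.ord f = 0 := by
          rintro f hf hf0
          obtain ⟨a, ha, rfl⟩ := mem_upF.1 hf
          have ha0 : a ≠ 0 := fun h => hf0 (by rw [h, map_zero])
          rw [hQ.2, hE a ha ha0, mul_zero]
        have h3 : Ge Q 0 (f l) := triv_ge hup (hacl' _ (hfT l))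
        have h4 : Ge P 0 d0 := by
          rw [hd0']
          refine ge_det' P _ 0 (fun _ _ => 0) (fun i j => ?_) fun _ => by simp
          refine (reg_iff_ge _ _).1 (hD i _ ?_)
          by_cases h0 : ((t j : E) : K) = 0
          · exact Or.inl h0
          · exact Or.inr (hE _ (t j).2 h0).ge
        have h5 : Ge Q 0 (algebraMap K K' d0) := by
          have := (over_ge hQ).2 h4
          rwa [mul_zero] at this
        have h6 := h3.mul (h5.pow m)
        rw [mul_zero, add_zero] at h6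
        rcases h6 with h6 | h6
        · exact Or.inl h6
        right
        have h7 : (0 : ℝ) ≤ (Q.ord (f l * algebraMap K K' d0 ^ m) : ℝ) := by exact_mod_cast h6
        have h8 := mul_nonneg hM0 (mul_nonneg hε0 (hδ P hP))
        linarith
      · have h3 := const_est hN M hM hy hEy (hω l) hPd hQ (hβ P hP Q ε hQ) (hωr l P hP Q ε hQ)
          (hδ P hP)
          (fun htr => hH P hP htr hE Q ε hQ) hGr hG' (fun hI => ?_)
        · have h4 : (Matrix.of fun i j => G' i ((y j : M) : K')).det ^ m *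
              ((ω l Ey : M) : K') = f l * algebraMap K K' d0 ^ m := by
            rw [hdety G', hdet, hf]
            ring
          rw [h4] at h3
          exact h3
        · push Not at hE
          obtain ⟨a, haE, ha0, hao⟩ := hE
          refine ⟨algebraMap K K' a, by rw [Ne, map_eq_zero]; exact ha0, ?_, ?_⟩
          · rw [hQ.2]
            exact mul_ne_zero (by exact_mod_cast hQ.1.ne') hao
          · refine alg_of_indep hti hI (fun l => ?_) ?_
            · rw [← hT]
              exact hMT _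
            · rw [← hT]
              exact hET _ (mem_upF.2 ⟨a, haE, rfl⟩)
    have h4 := h2.resolve_left (mul_ne_zero (hf0 l) (pow_ne_zero _ hd0K))
    rw [Q.ord_mul (hf0 l) (pow_ne_zero _ hd0K), Q.ord_pow, hQ.2] at h4
    push_cast at h4
    linarith
  have h5 := hs P _ hkey b
  rw [P.ord_mul (pow_ne_zero _ hd00) (hs0 b), P.ord_pow]
  push_cast
  linarith

end

end Pool.Agent.X180.OC
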