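import Pool.Agent.X180.OC.Defs
import Pool.Agent.X180.OC.Part
import Pool.Agent.X180.OP.Bd
import Pool.Agent.X180.OP.Gen

/-!
Towers with constant orbifold steps: the forms.
-/

set_option autoImplicit false
set_option linter.overlappingInstances false

open FF Pool.Agent.W602.GT Pool.Agent.Y172 Pool.Agent.Y191 Pool.Agent.X180.Orb
open Pool.Agent.X180.TP (dims exists_idx)
open Pool.Agent.X180.Tow (HasForms dn trdeg_dn hor_nonneg hor_le)
open Pool.Agent.X180.Iso (hor)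

namespace Pool.Agent.X180.OC

variable {K : Type} [Field K] [Algebra ℂ K]

/-- the forms of a constant orbifold step -/
theorem part_const {E L : IntermediateField ℂ K} (hLE : L ≤ E) {N d e' e lam : ℕ}
    (hK : Algebra.trdeg ℂ K = N) (hN : N = d + e') (hL : Algebra.trdeg ℂ L = d)
    (hE : Algebra.trdeg ℂ E = (d + e : ℕ)) {S : Set (Place ℂ K)} {δ : Place ℂ K → ℝ}
    (hδ : ∀ P ∈ S, 0 ≤ δ P) (h : ConstantFibres S δ E L e lam) :
    HasPart N S (fun P => hor L δ P - hor E δ P) E L e lam := by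
  obtain ⟨K', _, _, _, _, _, M, a, hess, hM, hME, hML, ha, ⟨m, hm, ω, hω, D0, hD0, hDi⟩, hH⟩ := h
  refine const_part (m := m) (ω := ω) (D0 := D0) hK hLE
    (Pool.Agent.X180.Iso.trdeg_rel (d := d) (hK.trans (by rw [hN])) hL)
    (Pool.Agent.X180.OT.trdeg_step hLE hL hE) M hM hML hME hm
    (fun _ _ _ _ _ p _ _ => ha p) (fun b => (hω b).1)
    (fun b _ _ _ _ _ p _ _ hp D hD => (hω b).2 p hp D hD) hD0 hDi
    (fun P hP => sub_nonneg.2 (hor_le hLE (hδ P hP))) ?_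
  intro P hP htr hE' Q ε hQ
  have h1 : hor L δ P - hor E δ P = δ P := by
    unfold hor
    rw [if_pos htr, if_neg hE', sub_zero]
  rw [h1]
  refine hH P hP htr ?_ Q ε hQ
  push Not at hE'
  exact hE'

theorem orb_congr {S : Set (Place ℂ K)} {δ δ' : Place ℂ K → ℝ} (hδ : ∀ P ∈ S, δ P = δ' P)
    {E L : IntermediateField ℂ K} {e lam : ℕ} (h : OP.OrbifoldFibres S δ E L e lam) :
    OP.OrbifoldFibres S δ' E L e lam := by
  obtain ⟨c, r, s, w, he, hl, hw, K', _, _, _, _, _, A, u, hA, hu, huE, hH⟩ := h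
  refine ⟨c, r, s, w, he, hl, hw, K', _, _, _, _, ‹_›, A, u, hA, hu, huE, ?_⟩
  intro P hP
  rw [← hδ P hP.1]
  exact hH P hP

theorem const_congr {S : Set (Place ℂ K)} {δ δ' : Place ℂ K → ℝ} (hδ : ∀ P ∈ S, δ P = δ' P)
    {E L : IntermediateField ℂ K} {e lam : ℕ} (h : ConstantFibres S δ E L e lam) :
    ConstantFibres S δ' E L e lam := by
  obtain ⟨K', _, _, _, _, _, M, a, hess, hM, hME, hML, ha, hk, hH⟩ := h
  refine ⟨K', _, _, _, _, ‹_›, M, a, hess, hM, hME, hML, ha, hk, ?_⟩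
  intro P hP
  rw [← hδ P hP]
  exact hH P hP

theorem tower_congr {S : Set (Place ℂ K)} {δ δ' : Place ℂ K → ℝ} (hδ : ∀ P ∈ S, δ P = δ' P)
    {l : ℕ} {E : Fin (l + 1) → IntermediateField ℂ K} {D : Fin (l + 1) → ℕ} {e lam : Fin l → ℕ}
    (h : IsTower S δ E D e lam) : IsTower S δ' E D e lam :=
  ⟨h.1, fun i => ⟨(h.2 i).1, (h.2 i).2.1, (h.2 i).2.2.imp (orb_congr hδ) (const_congr hδ)⟩⟩

/-- no condition at the places where the boundary has the coefficient one -/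
theorem orb_full {S : Set (Place ℂ K)} {δ : Place ℂ K → ℝ} {E L : IntermediateField ℂ K}
    {e lam : ℕ} (h : OP.OrbifoldFibres {P | P ∈ S ∧ δ P < 1} δ E L e lam) :
    OP.OrbifoldFibres S δ E L e lam := by
  obtain ⟨c, r, s, w, he, hl, hw, K', _, _, _, _, _, A, u, hA, hu, huE, hH⟩ := h
  refine ⟨c, r, s, w, he, hl, hw, K', _, _, _, _, ‹_›, A, u, hA, hu, huE, ?_⟩
  refine OP.lcHor_full hA (fun j => (hw j).2.1) (fun j => (hw j).2.2) ?_
  intro P hP
  exact hH P ⟨⟨hP.1.1, hP.2⟩, hP.1.2⟩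

theorem const_full {S : Set (Place ℂ K)} {δ : Place ℂ K → ℝ} {E L : IntermediateField ℂ K}
    {e lam : ℕ} (h : ConstantFibres {P | P ∈ S ∧ δ P < 1} δ E L e lam) :
    ConstantFibres S δ E L e lam := by
  obtain ⟨K', _, _, _, _, _, M, a, hess, hM, hME, hML, ha, hk, hH⟩ := h
  refine ⟨K', _, _, _, _, ‹_›, M, a, hess, hM, hME, hML, ha, hk, ?_⟩
  intro P hP htr hE Q ε hQ
  by_cases h1 : δ P < 1
  · exact hH P ⟨hP, h1⟩ htr hE Q ε hQ
  have h2 : (ε : ℝ) * (1 - δ P) ≤ 0 :=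
    mul_nonpos_of_nonneg_of_nonpos (Nat.cast_nonneg _) (by linarith)
  exact ⟨fun _ => h2.trans zero_le_one, fun p ν _ =>
    h2.trans (mul_nonneg (Nat.cast_nonneg _) (ha p))⟩

theorem tower_full {S : Set (Place ℂ K)} {δ : Place ℂ K → ℝ} {l : ℕ}
    {E : Fin (l + 1) → IntermediateField ℂ K} {D : Fin (l + 1) → ℕ} {e lam : Fin l → ℕ}
    (h : IsTower {P | P ∈ S ∧ δ P < 1} δ E D e lam) : IsTower S δ E D e lam :=
  ⟨h.1, fun i => ⟨(h.2 i).1, (h.2 i).2.1, (h.2 i).2.2.imp orb_full const_full⟩⟩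

/-- **Towers.** -/
theorem tower_forms {N e' lam' l : ℕ}
    {S : Set (Place ℂ K)} {δ : Place ℂ K → ℝ} (hδ : ∀ P ∈ S, 0 ≤ δ P)
    {E : Fin (l + 1) → IntermediateField ℂ K}
    {D : Fin (l + 1) → ℕ} {e lam : Fin l → ℕ} (hT : IsTower S δ E D e lam)
    (hN : Algebra.trdeg ℂ K = N) (hNe : N = D (Fin.last l) + e')
    (h0 : HasForms N S (hor (E (Fin.last l)) δ) (E (Fin.last l)) e' lam') :
    HasForms N S (hor (E 0) δ) (E 0) (∑ i, e i + e') (∑ i, lam i + lam') := by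
  refine chain_part hN l E (fun i => (hT.2 i).1) D hT.1 e lam (fun i => (hT.2 i).2.1) hNe
    (fun i => ?_) h0
  have h1 : ∃ e'', N = D i.castSucc + e'' := by
    have h2 : D i.castSucc ≤ N := by
      have h3 : Algebra.trdeg ℂ (E i.castSucc) ≤ Algebra.trdeg ℂ K := by
        rw [← _root_.trdeg_add_eq ℂ (E i.castSucc) (A := K)]
        exact self_le_add_right _ _
      rw [hT.1, hN] at h3
      exact_mod_cast h3
    exact ⟨N - D i.castSucc, by omega⟩
  obtain ⟨e'', he''⟩ := h1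
  rcases (hT.2 i).2.2 with h | h
  · exact Pool.Agent.X180.OT.part_orb (hT.2 i).1 hN he'' (hT.1 _) (by rw [hT.1, (hT.2 i).2.1]) hδ h
  · exact part_const (hT.2 i).1 hN he'' (hT.1 _) (by rw [hT.1, (hT.2 i).2.1]) hδ h

/-- the Kodaira dimension from the forms, for any pair -/
theorem kod_of_ge {N n lam : ℕ} {y : Fin (N + 1) → K} {Δ : Place ℂ K → ℚ} (hy : OP.IsPair y n Δ)
    (hK : KodairaGe n {P | IsPrimeDivisor y P} (fun P => (Δ P : ℝ)) lam) :
    (lam : WithBot ℕ) ≤ kodairaDim y n Δ := by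
  have hu : IsTranscendenceBasis (⊤ : IntermediateField ℂ K)
      (fun s : (Σ j : Fin 0, Fin (Fin.elim0 j : ℕ)) => (Fin.elim0 s.1 : K)) := by
    have : IsEmpty (Σ j : Fin 0, Fin (Fin.elim0 j : ℕ)) := ⟨fun s => s.1.elim0⟩
    have h6 : AlgebraicIndependent (⊤ : IntermediateField ℂ K)
        (fun s : (Σ j : Fin 0, Fin (Fin.elim0 j : ℕ)) => (Fin.elim0 s.1 : K)) :=
      algebraicIndependent_empty_type
    refine h6.isTranscendenceBasis_iff_isAlgebraic.2 ⟨fun z => ?_⟩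
    have h7 : IsAlgebraic (⊤ : IntermediateField ℂ K) z :=
      isAlgebraic_algebraMap (⟨z, trivial⟩ : (⊤ : IntermediateField ℂ K))
    exact h7.extendScalars (algebraMap (⊤ : IntermediateField ℂ K) _).injective
  refine lc_nv (c := 0) (L := (⊤ : IntermediateField ℂ K)) (K' := K)
    (r := fun j : Fin 0 => Fin.elim0 j) (q := fun j : Fin 0 => Fin.elim0 j)
    (A := fun j : Fin 0 => Fin.elim0 j) (w := fun j : Fin 0 => Fin.elim0 j) hy.1 hy.2.1 hy.2.2
    (fun j => j.elim0) hu (fun j => j.elim0) (fun j => j.elim0) (fun j => j.elim0) ?_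
    (fun j => j.elim0) (by simp) hK
  intro a P g hg
  have : IsEmpty (Σ j : Fin 0, Fin (Fin.elim0 j : ℕ)) := ⟨fun s => s.1.elim0⟩
  exact absurd hg (OP.no_irred g)

/-- **Nonvanishing**, towers over a point. -/
theorem tower_point {N l : ℕ}
    {E : Fin (l + 1) → IntermediateField ℂ K} {D : Fin (l + 1) → ℕ} {e lam : Fin l → ℕ}
    {y : Fin (N + 1) → K} {Δ : Place ℂ K → ℚ} (hy : OP.IsPair y (D (Fin.last l)) Δ)
    (hE0 : E 0 = ⊥)
    (hT : IsTower {P | IsPrimeDivisor y P ∧ Δ P < 1} (fun P => (Δ P : ℝ)) E D e lam) :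
    ((∑ i, lam i : ℕ) : WithBot ℕ) ≤ kodairaDim y (D (Fin.last l)) Δ := by
  have hT' : IsTower {P | IsPrimeDivisor y P} (fun P => (Δ P : ℝ)) E D e lam := by
    refine tower_full ?_
    have h1 : {P | P ∈ {P | IsPrimeDivisor y P} ∧ ((Δ P : ℚ) : ℝ) < 1} =
        {P | IsPrimeDivisor y P ∧ Δ P < 1} := by
      ext P
      change (IsPrimeDivisor y P ∧ ((Δ P : ℚ) : ℝ) < 1) ↔ (IsPrimeDivisor y P ∧ Δ P < 1)
      norm_cast
    rw [h1]
    exact hT
  have hδ : ∀ P ∈ {P | IsPrimeDivisor y P}, (0 : ℝ) ≤ (Δ P : ℝ) := fun P hP =>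
    Rat.cast_nonneg.2 (hy.2.2.1 P hP)
  have h1 := tower_forms hδ hT' hy.2.1 (add_zero (D (Fin.last l))).symm
    (OP.zero_forms hδ (E (Fin.last l)))
  rw [add_zero, add_zero] at h1
  have hsum : D (Fin.last l) = D 0 + ∑ i, e i := dims fun i => (hT.2 i).2.1
  have hD0 : D 0 = 0 := by
    have h2 := hT.1 0
    rw [hE0] at h2
    have h3 : Algebra.trdeg ℂ (⊥ : IntermediateField ℂ K) = 0 := by
      refine trdeg_eq_zero_iff.2 ?_
      infer_instance
    rw [h3] at h2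
    exact_mod_cast h2.symm
  rw [hD0, zero_add] at hsum
  rw [← hsum] at h1
  have h2 : hor (E 0) (fun P => (Δ P : ℝ)) = fun P => (Δ P : ℝ) := by
    funext P
    unfold hor
    rw [if_pos]
    intro f hf hf0
    rw [hE0] at hf
    obtain ⟨c, rfl⟩ := IntermediateField.mem_bot.1 hf
    have hc : c ≠ 0 := fun h => hf0 (by rw [h, map_zero])
    exact P.ord_const hc
  rw [h2, hE0] at h1
  exact kod_of_ge hy (OP.point_kod h1)

end Pool.Agent.X180.OC
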