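import Pool.Agent.X180.OP.Defs

/-!
Definitions: towers whose steps are moving log canonical arrangements or constant orbifolds.
-/

set_option autoImplicit false

open FF Pool.Agent.W602.GT Pool.Agent.Y172 Pool.Agent.Y191

namespace Pool.Agent.X180.OC

/-- The Kodaira dimension of the orbifold `(V, a)` of dimension `d` is at least `h`, where `F` is the
function field of `V`, and `a p` is the log discrepancy at the place `p`: for some `m > 0` there are
`m`-canonical forms with poles of order at most `m (1 - a p)` at all divisorial places `p` of `F`,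
whose ratios contain `h` algebraically independent functions (a nonzero form, if `h = 0`). -/
def OrbifoldKodGe (F : Type) [Field F] [Algebra ℂ F] (d : ℕ) (a : Place ℂ F → ℝ) (h : ℕ) : Prop :=
  ∃ m : ℕ, 0 < m ∧ ∃ ω : Fin (h + 1) → (Fin d → Derivation ℂ F F) → F,
    (∀ b, IsPluri m (ω b) ∧ ∀ p, Divisorial d p → ∀ D : Fin d → Derivation ℂ F F,
      (∀ i, DerReg p (D i)) → ω b D = 0 ∨ -(m * (1 - a p)) ≤ (p.ord (ω b D) : ℝ)) ∧
    ∃ D, ω 0 D ≠ 0 ∧ AlgebraicIndependent ℂ (fun i : Fin h => ω i.succ D / ω 0 D)

variable {K : Type} [Field K] [Algebra ℂ K]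

/-- Let `K`, `E` and `L` be the function fields of `X`, `W` and `Z`, with dominant rational maps
`X ⇢ W ⇢ Z`; let `S` be a set of prime divisors of `X`, and `δ P` the coefficient of `P` in the
boundary. The fibres of `W` over `Z`, with the boundary and the multiplicities of the fibres of `X`
over `W`, correspond to one orbifold `(V, a)` of dimension `e` and Kodaira dimension at least `lam`:
there is a variety `X'` with a generically finite map `X' ⇢ X`, with the function field `K'`, and a
rational map `X' ⇢ V`, where `V` has the function field `M` and is dominated by the fibres of `X'`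
over `Z` (functions in `M` which are algebraically independent over `ℂ` are so over `L`), and which is
constant on the fibres of `X' ⇢ W` (`M` is algebraic over `E`). `a p ≥ 0` is the log discrepancy of the
orbifold at the place `p` of `M`. For each place `Q` of `K'` over a prime divisor `P` of `X` in `S` which dominates
`Z` and does not dominate `W`, with ramification index `ε`, one has `ε (1 - δ P) ≤ ν a p` if `Q` lies
over the place `p` of `M` with ramification index `ν`, and `ε (1 - δ P) ≤ 1` if `Q` is trivial on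
`M`. -/
def ConstantFibres (S : Set (Place ℂ K)) (δ : Place ℂ K → ℝ) (E L : IntermediateField ℂ K)
    (e lam : ℕ) : Prop :=
  ∃ (K' : Type) (_ : Field K') (_ : Algebra ℂ K') (_ : Algebra K K') (_ : IsScalarTower ℂ K K')
    (_ : FiniteDimensional K K') (M : IntermediateField ℂ K') (a : Place ℂ M → ℝ),
    Algebra.EssFiniteType ℂ M ∧ Algebra.trdeg ℂ M = e ∧
    (∀ z ∈ M, IsAlgebraic (upF K' E) z) ∧
    (∀ x : Fin e → M, AlgebraicIndependent ℂ x →
      AlgebraicIndependent (upF K' L) fun j => ((x j : M) : K')) ∧
    (∀ p, 0 ≤ a p) ∧ OrbifoldKodGe M e a lam ∧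
    ∀ P ∈ S, (∀ f ∈ L, f ≠ 0 → P.ord f = 0) → (∃ f ∈ E, f ≠ 0 ∧ P.ord f ≠ 0) →
      ∀ (Q : Place ℂ K') (ε : ℕ), Over Q P ε →
        ((∀ f : M, Q.ord (f : K') = 0) → (ε : ℝ) * (1 - δ P) ≤ 1) ∧
        ∀ (p : Place ℂ M) (ν : ℕ), Over Q p ν → (ε : ℝ) * (1 - δ P) ≤ ν * a p

/-- The tower `X ⇢ W_l ⇢ ... ⇢ W_1 ⇢ W_0`: the `E i` are the function fields of varieties of
dimensions `D i`, each contained in the next one, and the fibres of `W_{i+1}` over `W_i`, of dimension
`e i`, with the boundary and the multiplicities of the fibres of `X` over `W_{i+1}`, are as in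
`OrbifoldFibres` or as in `ConstantFibres`, of log Kodaira dimension `lam i`, for each `i < l`. -/
def IsTower (S : Set (Place ℂ K)) (δ : Place ℂ K → ℝ) {l : ℕ}
    (E : Fin (l + 1) → IntermediateField ℂ K) (D : Fin (l + 1) → ℕ) (e lam : Fin l → ℕ) : Prop :=
  (∀ i, Algebra.trdeg ℂ (E i) = D i) ∧
  ∀ i : Fin l, E i.castSucc ≤ E i.succ ∧ D i.succ = D i.castSucc + e i ∧
    (OP.OrbifoldFibres S δ (E i.succ) (E i.castSucc) (e i) (lam i) ∨
      ConstantFibres S δ (E i.succ) (E i.castSucc) (e i) (lam i))

end Pool.Agent.X180.OC
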