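import Pool.Agent.X180.Orb.ChainP
import Pool.Agent.X180.Iso.Fib

/-!
The estimate of the forms of a constant orbifold.
-/

set_option autoImplicit false
set_option linter.overlappingInstances false
set_option linter.unusedSectionVars false

open FF Pool.Agent.W602.GT Pool.Agent.W603.LV Pool.Agent.W619.PQ Pool.Agent.TH585.SV
open Pool.Agent.W619.Y Pool.Agent.Y172 Pool.Agent.Y191 Pool.Agent.X180.Iso Pool.Agent.X180.Tow
open Pool.Agent.X180.Orb

namespace Pool.Agent.X180.OC

section det

variable {F : Type} [Field F] [Algebra ℂ F] {d : ℕ}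

/-- the determinant of the derivatives and of the logarithmic derivatives -/
theorem det_log_eq {f : Fin d → F} (hf : ∀ j, f j ≠ 0) (D : Fin d → F → F) :
    (Matrix.of fun i j => D i (f j)).det =
      (∏ j, f j) * (Matrix.of fun i j => D i (f j) / f j).det := by
  have h1 : (Matrix.of fun i j => D i (f j)) =
      (Matrix.of fun i j => D i (f j) / f j) * Matrix.diagonal f := by
    ext i j
    rw [Matrix.mul_diagonal, Matrix.of_apply, Matrix.of_apply, div_mul_cancel₀ _ (hf j)]
  rw [h1, Matrix.det_mul, Matrix.det_diagonal, mul_comm]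

theorem ge_prod_ord {Q : Place ℂ F} {f : Fin d → F}
    (h0 : ∀ j, 0 ≤ Q.ord (f j)) {i0 : Fin d} {ν : ℤ} (hi : Q.ord (f i0) = ν) :
    Ge Q ν (∏ j, f j) := by
  classical
  have h1 := Ge.prod (P := Q) Finset.univ f (fun j => Q.ord (f j)) fun j _ => Or.inr le_rfl
  refine h1.mono ?_
  rw [← hi, ← Finset.add_sum_erase _ _ (Finset.mem_univ i0)]
  have h2 : 0 ≤ ∑ j ∈ Finset.univ.erase i0, Q.ord (f j) := Finset.sum_nonneg fun j _ => h0 j
  omega

end det

section

variable {K K' : Type} [Field K] [Field K'] [Algebra ℂ K] [Algebra ℂ K'] [Algebra K K']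
  [IsScalarTower ℂ K K'] [FiniteDimensional K K'] {L : IntermediateField ℂ K}

/-- the estimate of the forms -/
theorem const_est {N d m : ℕ} (hN : Algebra.trdeg ℂ K = N)
    (M : IntermediateField ℂ K') [Algebra.EssFiniteType ℂ M] (hM : Algebra.trdeg ℂ M = d)
    {y : Fin d → M} {Ey : Fin d → Derivation ℂ M M} (hy : IsTranscendenceBasis ℂ y)
    (hEy : ∀ i j, Ey i (y j) = if i = j then 1 else 0)
    {β : Place ℂ M → ℝ}
    {ω : (Fin d → Derivation ℂ M M) → M} (hω : IsPluri m ω)
    {P : Place ℂ K} (hPd : Divisorial N P) {Q : Place ℂ K'} {ε : ℕ} (hQ : Over Q P ε)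
    (hβ : ∀ (p : Place ℂ M) (ν : ℕ), Over Q p ν → 0 ≤ β p)
    (hωr : ∀ (p : Place ℂ M) (ν : ℕ), Over Q p ν → Divisorial d p → ∀ D, (∀ i, DerReg p (D i)) →
      ω D = 0 ∨ -(m * (1 - β p)) ≤ (p.ord (ω D) : ℝ))
    {x : ℝ} (hx : 0 ≤ x)
    (hH : (∀ f ∈ L, f ≠ 0 → P.ord f = 0) →
      ((∀ f : M, Q.ord (f : K') = 0) → (ε : ℝ) * (1 - x) ≤ 1) ∧
      ∀ (p : Place ℂ M) (ν : ℕ), Over Q p ν → (ε : ℝ) * (1 - x) ≤ ν * β p)
    {G : Fin d → Derivation L K K} (hG : ∀ i f, P.Reg f → P.Reg (G i f))
    {G' : Fin d → Derivation (upF K' L) K' K'}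
    (hG' : ∀ i f, G' i (algebraMap K K' f) = algebraMap K K' (G i f))
    (hdep : AlgebraicIndependent (upF K' L) (fun j => ((y j : M) : K')) →
      ∃ z : K', z ≠ 0 ∧ Q.ord z ≠ 0 ∧ IsAlgebraic (IntermediateField.adjoin (upF K' L)
        (Set.range fun j => ((y j : M) : K'))) z) :
    GeR Q (-(m * (ε * x)))
      ((Matrix.of fun i j => G' i ((y j : M) : K')).det ^ m * ((ω Ey : M) : K')) := by
  classical
  have hN' : Algebra.trdeg ℂ K' = N := by
    have h1 : Algebra.trdeg K K' = 0 := trdeg_eq_zero_iff.2 inferInstance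
    rw [← hN, ← _root_.trdeg_add_eq ℂ K (A := K'), h1, add_zero]
  have hm0 : (0 : ℝ) ≤ m := Nat.cast_nonneg _
  have hε0 : (0 : ℝ) ≤ ε := Nat.cast_nonneg _
  have hεx : 0 ≤ (m : ℝ) * (ε * x) := mul_nonneg hm0 (mul_nonneg hε0 hx)
  -- logarithmic vector fields
  have hlog : (∃ a ∈ L, a ≠ 0 ∧ P.ord a ≠ 0) → ∀ l, DerLog Q ((G' l).restrictScalars ℂ) := by
    rintro ⟨a, haL, ha0, hao⟩ l
    have h2 : DerLog P ((G l).restrictScalars ℂ) := by
      intro f
      by_cases hf : f = 0
      · left
        rw [hf, div_zero]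
      · exact log_of_const (a := a) (fun f hf => hG l f hf)
          ((G l).map_algebraMap (⟨a, haL⟩ : L)) hao hf
    exact lift_log hQ h2 (fun f => hG' l f)
  have hlogdet : (∃ a ∈ L, a ≠ 0 ∧ P.ord a ≠ 0) → ∀ f : Fin d → K',
      Ge Q 0 (Matrix.of fun i j => G' i (f j) / f j).det := by
    intro h f
    refine ge_det' Q _ 0 (fun _ _ => 0) (fun i j => ?_) fun _ => by simp
    exact (reg_iff_ge _ _).1 (hlog h i (f j))
  by_cases htM : ∀ f : M, Q.ord (f : K') = 0
  · -- the place is trivial on `M`
    have hy0 : ∀ j, ((y j : M) : K') ≠ 0 := fun j h0 =>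
      hy.1.ne_zero j (Subtype.ext h0)
    have hdet := det_log_eq hy0 (fun i z => G' i z)
    have hprod : Ge Q 0 (∏ j, ((y j : M) : K')) := by
      have h1 := Ge.prod (P := Q) Finset.univ (fun j => ((y j : M) : K')) (fun _ => 0)
        fun j _ => Or.inr (htM (y j)).ge
      simpa using h1
    have hωE : Ge Q 0 ((ω Ey : M) : K') := Or.inr (htM _).ge
    by_cases htr : ∀ f ∈ L, f ≠ 0 → P.ord f = 0
    · have h1 := (lift_det_gen (f := fun j => ((y j : M) : K')) hQ hG hG').2 htr
        (fun l => htM (y l)) hdep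
      have h2 : Ge Q (1 - ε) (Matrix.of fun i j => G' i ((y j : M) : K')).det := by
        rw [hdet]
        have := hprod.mul h1
        rwa [zero_add] at this
      have h3 := (h2.pow m).mul hωE
      rcases h3 with h3 | h3
      · exact Or.inl h3
      right
      have h4 := (hH htr).1 htM
      have h5 : (((m : ℤ) * (1 - ε) + 0 : ℤ) : ℝ) ≤ (Q.ord ((Matrix.of fun i j =>
          G' i ((y j : M) : K')).det ^ m * ((ω Ey : M) : K')) : ℝ) := by exact_mod_cast h3
      refine le_trans ?_ h5
      push_cast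
      have h6 := mul_le_mul_of_nonneg_left h4 hm0
      linarith
    · push Not at htr
      have h1 := hlogdet htr fun j => ((y j : M) : K')
      have h2 : Ge Q 0 (Matrix.of fun i j => G' i ((y j : M) : K')).det := by
        rw [hdet]
        have := hprod.mul h1
        rwa [zero_add] at this
      have h3 := (h2.pow m).mul hωE
      rcases h3 with h3 | h3
      · exact Or.inl h3
      right
      have h5 : (((m : ℤ) * 0 + 0 : ℤ) : ℝ) ≤ (Q.ord ((Matrix.of fun i j =>
          G' i ((y j : M) : K')).det ^ m * ((ω Ey : M) : K')) : ℝ) := by exact_mod_cast h3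
      push_cast at h5
      linarith
  · -- the place lies over a place of `M`
    push Not at htM
    obtain ⟨ν, p, hp⟩ := exists_over (K := M) Q htM
    have hdiv : IsDivisorial p d := pDIVR ℂ M K' d N p Q ν hM hN' hp (divisorial_up hQ hPd)
    obtain ⟨z, Ez, i0, hz, hEz, hz1, hzr, hpres⟩ := pFRAME ℂ M d hM
      (fun y hy => fin_over y hy) p hdiv
    have hz0 : ∀ j, ((z j : M) : K') ≠ 0 := fun j h0 => hz.1.ne_zero j (Subtype.ext h0)
    have hdet := det_log_eq hz0 (fun i w => G' i w)
    -- the change of the coordinates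
    have hcoord : (Matrix.of fun i j => G' i ((y j : M) : K')).det ^ m * ((ω Ey : M) : K') =
        (Matrix.of fun i j => G' i ((z j : M) : K')).det ^ m * ((ω Ez : M) : K') := by
      have h1 : (Matrix.of fun i j => G' i ((y j : M) : K')) =
          (Matrix.of fun i j => G' i ((z j : M) : K')) *
            (algebraMap M K').mapMatrix (Matrix.of fun c j => Ez c (y j)) := by
        ext i j
        rw [Matrix.mul_apply, Matrix.of_apply]
        exact Pool.Agent.W73.PG.PULL.chain (L := K') z hz Ez hEz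
          ((G' i).restrictScalars ℂ) (y j)
      have h2 : (((Matrix.of fun i j => Ez i (y j)).det ^ m * ω Ey : M) : K') =
          algebraMap M K' (Matrix.of fun i j => Ez i (y j)).det ^ m * ((ω Ey : M) : K') := by
        rw [← map_pow]
        rfl
      rw [h1, Matrix.det_mul, ← RingHom.map_det, pluri_coord hy hEy hω Ez, h2]
      ring
    rw [hcoord]
    have hzQ : ∀ j, 0 ≤ Q.ord ((z j : M) : K') := by
      intro j
      have h1 : Q.ord ((z j : M) : K') = ν * p.ord (z j) := hp.2 (z j)
      rw [h1]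
      rcases hzr j with h2 | h2
      · rw [h2, p.ord_zero, mul_zero]
      · positivity
    have hzi : Q.ord ((z i0 : M) : K') = ν := by
      have h1 : Q.ord ((z i0 : M) : K') = ν * p.ord (z i0) := hp.2 (z i0)
      rw [h1, hz1, mul_one]
    have hprod := ge_prod_ord hzQ hzi
    have hωz : GeR Q (-(m * (ν * (1 - β p)))) ((ω Ez : M) : K') := by
      rcases hωr p ν hp hdiv Ez hpres with h1 | h1
      · left
        rw [h1]
        rfl
      · right
        have h2 : Q.ord ((ω Ez : M) : K') = ν * p.ord (ω Ez) := hp.2 (ω Ez)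
        rw [h2]
        push_cast
        have h3 := mul_le_mul_of_nonneg_left h1 (Nat.cast_nonneg (α := ℝ) ν)
        linarith
    by_cases htr : ∀ f ∈ L, f ≠ 0 → P.ord f = 0
    · have h1 := (lift_det_gen (f := fun j => ((z j : M) : K')) hQ hG hG').1
      have h2 : Ge Q (ν - ε) (Matrix.of fun i j => G' i ((z j : M) : K')).det := by
        rw [hdet]
        have := hprod.mul h1
        rwa [← sub_eq_add_neg] at this
      have h3 : GeR Q (m * (ν - ε)) ((Matrix.of fun i j => G' i ((z j : M) : K')).det ^ m) := by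
        rcases h2.pow m with h4 | h4
        · exact Or.inl h4
        · right
          have h5 : (((m : ℤ) * (ν - ε) : ℤ) : ℝ) ≤ (Q.ord ((Matrix.of fun i j =>
            G' i ((z j : M) : K')).det ^ m) : ℝ) := by exact_mod_cast h4
          push_cast at h5
          exact h5
      refine (h3.mul hωz).mono ?_
      have h4 := mul_le_mul_of_nonneg_left ((hH htr).2 p ν hp) hm0
      linarith
    · push Not at htr
      have h1 := hlogdet htr fun j => ((z j : M) : K')
      have h2 : Ge Q ν (Matrix.of fun i j => G' i ((z j : M) : K')).det := by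
        rw [hdet]
        have := hprod.mul h1
        rwa [add_zero] at this
      have h3 : GeR Q (m * ν) ((Matrix.of fun i j => G' i ((z j : M) : K')).det ^ m) := by
        rcases h2.pow m with h4 | h4
        · exact Or.inl h4
        · right
          have h5 : (((m : ℤ) * ν : ℤ) : ℝ) ≤ (Q.ord ((Matrix.of fun i j =>
            G' i ((z j : M) : K')).det ^ m) : ℝ) := by exact_mod_cast h4
          push_cast at h5
          exact h5
      refine (h3.mul hωz).mono ?_
      have h4 : 0 ≤ (m : ℝ) * (ν * β p) :=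
        mul_nonneg hm0 (mul_nonneg (Nat.cast_nonneg _) (hβ p ν hp))
      linarith

end

end Pool.Agent.X180.OC
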